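import Pool.Agent.P.MP_48bde8_co.Final

/-! The generating function of rooted 4-connected planar maps, counted by vertices and faces,
is algebraic: it is a root of the explicit nonzero polynomial `poly`. -/

theorem Pool.Agent.Results.MP_48bde8_co.Algebraic.result :
    Pool.Agent.P.MP_48bde8_co.poly ≠ 0 ∧
      Polynomial.aeval Pool.Agent.P.MP_48bde8_co.F Pool.Agent.P.MP_48bde8_co.poly = 0 :=
  ⟨Pool.Agent.P.MP_48bde8_co.poly_ne_zero, Pool.Agent.P.MP_48bde8_co.aeval_poly⟩
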