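import Pool.Agent.P.MP_48bde8_co_s.Fin

/-! The generating function of rooted 4-connected planar maps is an explicit rational function of
the unique series solution of nine explicit polynomial equations, and a root of the explicit
nonzero polynomial `poly9`. -/

open Pool.Agent.P.MP_48bde8_co Pool.Agent.P.MP_48bde8_co_s in
theorem Pool.Agent.Results.MP_48bde8_co.Parametrisation.result :
    (∃ U : Fin 9 → PowerSeries (RatFunc ℚ),
      (∀ V : Fin 9 → PowerSeries (RatFunc ℚ),
        ((∀ j, PowerSeries.X ^ ord j ∣ V j - init PowerSeries.X zu j) ∧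
          sys PowerSeries.X zu V = 0) ↔ V = U) ∧
      den PowerSeries.X zu U ≠ 0 ∧ den PowerSeries.X zu U * Fu = num PowerSeries.X zu U) ∧
    poly9 ≠ 0 ∧ Polynomial.aeval F poly9 = 0 :=
  ⟨param, poly9_ne_zero, aeval_poly9⟩
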